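import Pool.Agent.Helper94.Curl.MollA
import Pool.Agent.Helper38.Curl.ApiM

/-! Packet C-M2: radial mollifiers in square integrable fields. -/

set_option autoImplicit false

open MeasureTheory Set Filter Topology Metric
open scoped ContDiff RealInnerProductSpace Convolution
open Pool.Agent.Helper38.Curl
open Pool.Agent.Helper94.Curl

namespace Pool.Agent.Helper22.Curl

theorem kap_integrable {r : ℝ} (hr : 0 < r) : Integrable (kap r) :=
  (kap_contDiff hr).continuous.integrable_of_hasCompactSupport (kap_compact hr)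

theorem kap_sub_integrable {r : ℝ} (hr : 0 < r) (x : E) :
    Integrable (fun y => kap r (x - y)) := (kap_integrable hr).comp_sub_left x

theorem integral_kap_sub {r : ℝ} (hr : 0 < r) (x : E) :
    ∫ y, kap r (x - y) = 1 := by
  rw [integral_sub_left_eq_self (fun y => kap r y) volume x, integral_kap hr]

theorem kap_bdd {r : ℝ} (hr : 0 < r) : ∃ C, ∀ y, ‖kap r y‖ ≤ C :=
  (kap_compact hr).exists_bound_of_continuous (kap_contDiff hr).continuous

theorem int1 {v : E → E} (hv : MemLp v 2) {r : ℝ} (hr : 0 < r) (x : E) :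
    Integrable (fun y => kap r (x - y) * ‖v y‖ ^ 2) := by
  obtain ⟨C, hC⟩ := kap_bdd hr
  exact (integrable_norm_sq hv).bdd_mul
    ((kap_contDiff hr).continuous.comp (continuous_const.sub continuous_id)).aestronglyMeasurable
    (Eventually.of_forall fun y => hC _)

theorem int2 {v : E → E} (hv : LocallyIntegrable v) {r : ℝ} (hr : 0 < r) (x : E) :
    Integrable (fun y => kap r (x - y) * ‖v y‖) := by
  have h1 : LocallyIntegrable (fun y => ‖v y‖) := fun y => (hv y).norm
  have h2 : HasCompactSupport (fun y => kap r (x - y)) := by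
    refine HasCompactSupport.intro (isCompact_closedBall x r) (fun y hy => ?_)
    apply kap_eq_zero hr
    rw [mem_closedBall, dist_comm, dist_eq_norm] at hy
    exact (not_le.1 hy).le
  exact h1.integrable_smul_left_of_hasCompactSupport
    ((kap_contDiff hr).continuous.comp (continuous_const.sub continuous_id)) h2

theorem norm_mol_sq_le {v : E → E} (hv : MemLp v 2) {r : ℝ} (hr : 0 < r) (x : E) :
    ‖mol r v x‖ ^ 2 ≤ ∫ y, kap r (x - y) * ‖v y‖ ^ 2 := by
  have hl : LocallyIntegrable v := hv.locallyIntegrable (by norm_num)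
  have h2 := int2 hl hr x
  have h1 := int1 hv hr x
  set t := ∫ y, kap r (x - y) * ‖v y‖ with ht
  have h3 : ‖mol r v x‖ ≤ t := by
    unfold mol
    refine (norm_integral_le_integral_norm _).trans (le_of_eq ?_)
    rw [ht]
    congr 1
    funext y
    rw [norm_smul, Real.norm_eq_abs, abs_of_nonneg (kap_nonneg hr _)]
  have h4 : 0 ≤ ∫ y, kap r (x - y) * (‖v y‖ - t) ^ 2 :=
    integral_nonneg fun y => mul_nonneg (kap_nonneg hr _) (sq_nonneg _)
  have h5 : ∫ y, kap r (x - y) * (‖v y‖ - t) ^ 2 =
      (∫ y, kap r (x - y) * ‖v y‖ ^ 2) - t ^ 2 := by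
    have e1 : (fun y => kap r (x - y) * (‖v y‖ - t) ^ 2) =
        fun y => (kap r (x - y) * ‖v y‖ ^ 2 - (2 * t) * (kap r (x - y) * ‖v y‖)) +
          t ^ 2 * kap r (x - y) := by
      funext y
      ring
    have i2 : Integrable (fun y => (2 * t) * (kap r (x - y) * ‖v y‖)) := h2.const_mul _
    have i3 : Integrable (fun y => t ^ 2 * kap r (x - y)) :=
      (kap_sub_integrable hr x).const_mul _
    have i1 : Integrable (fun y => kap r (x - y) * ‖v y‖ ^ 2 -
      (2 * t) * (kap r (x - y) * ‖v y‖)) := h1.sub i2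
    rw [e1, integral_add i1 i3, integral_sub h1 i2, integral_const_mul, integral_const_mul,
      integral_kap_sub hr, ← ht]
    ring
  have h6 : ‖mol r v x‖ ^ 2 ≤ t ^ 2 := pow_le_pow_left₀ (norm_nonneg _) h3 2
  linarith

theorem conv_int {v : E → E} (hv : MemLp v 2) {r : ℝ} (hr : 0 < r) :
    Integrable (fun x => ∫ y, kap r (x - y) * ‖v y‖ ^ 2) ∧
    ∫ x, ∫ y, kap r (x - y) * ‖v y‖ ^ 2 = sq v := by
  have e1 : (fun x => ∫ y, kap r (x - y) * ‖v y‖ ^ 2) =
      ((fun y => ‖v y‖ ^ 2) ⋆[ContinuousLinearMap.mul ℝ ℝ, volume] kap r) := by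
    funext x
    unfold convolution
    simp only [ContinuousLinearMap.mul_apply']
    congr 1
    funext y
    ring
  constructor
  · rw [e1]
    exact (integrable_norm_sq hv).integrable_convolution _ (kap_integrable hr)
  · rw [e1, integral_convolution _ (integrable_norm_sq hv) (kap_integrable hr)]
    simp only [ContinuousLinearMap.mul_apply', integral_kap hr, mul_one]
    rfl

theorem mol_memLp {v : E → E} (hv : MemLp v 2) {r : ℝ} (hr : 0 < r) : MemLp (mol r v) 2 := by
  have hc : Continuous (mol r v) :=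
    (mol_contDiff (hv.locallyIntegrable (by norm_num)) hr).continuous
  rw [memLp_two_iff_integrable_sq_norm hc.aestronglyMeasurable]
  refine (conv_int hv hr).1.mono' (hc.norm.pow 2).aestronglyMeasurable
    (Eventually.of_forall fun x => ?_)
  rw [Real.norm_eq_abs, abs_of_nonneg (by positivity)]
  exact norm_mol_sq_le hv hr x

theorem sq_mol_le {v : E → E} (hv : MemLp v 2) {r : ℝ} (hr : 0 < r) : sq (mol r v) ≤ sq v := by
  rw [← (conv_int hv hr).2]
  exact integral_mono (integrable_norm_sq (mol_memLp hv hr)) (conv_int hv hr).1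
    (fun x => norm_mol_sq_le hv hr x)

theorem int3 {v : E → E} (hv : LocallyIntegrable v) {r : ℝ} (hr : 0 < r) (x : E) :
    Integrable (fun y => kap r (x - y) • v y) := by
  have h2 : HasCompactSupport (fun y => kap r (x - y)) := by
    refine HasCompactSupport.intro (isCompact_closedBall x r) (fun y hy => ?_)
    apply kap_eq_zero hr
    rw [mem_closedBall, dist_comm, dist_eq_norm] at hy
    exact (not_le.1 hy).le
  exact hv.integrable_smul_left_of_hasCompactSupport
    ((kap_contDiff hr).continuous.comp (continuous_const.sub continuous_id)) h2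

theorem mol_sub {v w : E → E} (hv : LocallyIntegrable v) (hw : LocallyIntegrable w) {r : ℝ}
    (hr : 0 < r) (x : E) : mol r (fun y => v y - w y) x = mol r v x - mol r w x := by
  unfold mol
  rw [← integral_sub (int3 hv hr x) (int3 hw hr x)]
  simp only [smul_sub]

theorem mol_sub_self_le {g : E → E} (hg : LocallyIntegrable g) {r δ : ℝ} (hr : 0 < r)
    (h : ∀ x y, dist x y < r → dist (g x) (g y) ≤ δ) (x : E) : ‖mol r g x - g x‖ ≤ δ := by
  have i1 : Integrable (fun y => kap r (x - y) • g x) := (kap_sub_integrable hr x).smul_const _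
  have e1 : mol r g x - g x = ∫ y, kap r (x - y) • (g y - g x) := by
    have e2 : g x = ∫ y, kap r (x - y) • g x := by
      rw [integral_smul_const, integral_kap_sub hr, one_smul]
    conv_lhs => rw [e2]
    unfold mol
    rw [← integral_sub (int3 hg hr x) i1]
    simp only [smul_sub]
  rw [e1]
  have hb : Integrable (fun y => kap r (x - y) * δ) := (kap_sub_integrable hr x).mul_const _
  refine (norm_integral_le_of_norm_le hb (Eventually.of_forall fun y => ?_)).trans (le_of_eq ?_)
  · rw [norm_smul, Real.norm_eq_abs, abs_of_nonneg (kap_nonneg hr _)]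
    by_cases hy : dist x y < r
    · refine mul_le_mul_of_nonneg_left ?_ (kap_nonneg hr _)
      rw [← dist_eq_norm, dist_comm]
      exact h x y hy
    · have h0 : kap r (x - y) = 0 := by
        apply kap_eq_zero hr
        rw [← dist_eq_norm]
        exact not_lt.1 hy
      rw [h0, zero_mul, zero_mul]
  · rw [integral_mul_const, integral_kap_sub hr, one_mul]

theorem mol_tendsto_cont {g : E → E} (hg : Continuous g) (hgc : HasCompactSupport g) :
    Tendsto (fun r => sq (fun x => mol r g x - g x)) (𝓝[>] 0) (𝓝 0) := by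
  have hl : LocallyIntegrable g := hg.locallyIntegrable
  obtain ⟨R, hR⟩ := hgc.isCompact.isBounded.subset_closedBall (0 : E)
  have hR' : ∀ x, x ∉ closedBall (0 : E) R → g x = 0 := fun x hx =>
    image_eq_zero_of_notMem_tsupport fun h => hx (hR h)
  have hu := hgc.uniformContinuous_of_continuous hg
  rw [Metric.uniformContinuous_iff] at hu
  set V : ℝ := volume.real (cthickening 1 (closedBall (0 : E) R)) with hV
  have hVn : 0 ≤ V := measureReal_nonneg
  have hcpt : IsCompact (cthickening 1 (closedBall (0 : E) R)) :=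
    (isCompact_closedBall (0 : E) R).cthickening
  rw [Metric.tendsto_nhdsWithin_nhds]
  intro ε hε
  obtain ⟨δ, hδ, hδε⟩ : ∃ δ : ℝ, 0 < δ ∧ δ ^ 2 * V < ε := by
    have h1 : Tendsto (fun δ : ℝ => δ ^ 2 * V) (𝓝[>] 0) (𝓝 0) := by
      have h2 : Tendsto (fun δ : ℝ => δ ^ 2 * V) (𝓝 0) (𝓝 (0 ^ 2 * V)) :=
        ((continuous_pow 2).mul continuous_const).tendsto 0
      rw [zero_pow two_ne_zero, zero_mul] at h2
      exact h2.mono_left nhdsWithin_le_nhds
    obtain ⟨δ, h3, h4⟩ := ((h1.eventually (gt_mem_nhds hε)).and self_mem_nhdsWithin).exists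
    exact ⟨δ, h4, h3⟩
  obtain ⟨ρ, hρ, hρδ⟩ := hu δ hδ
  refine ⟨min ρ 1, lt_min hρ one_pos, fun {r} hr hr2 => ?_⟩
  have hr0 : 0 < r := hr
  rw [dist_zero_right, Real.norm_eq_abs, abs_of_pos hr0, lt_min_iff] at hr2
  have hb : ∀ x, ‖mol r g x - g x‖ ≤ δ := mol_sub_self_le hl hr0
    (fun x y hxy => (hρδ (hxy.trans hr2.1)).le)
  have hz : ∀ x, x ∉ cthickening 1 (closedBall (0 : E) R) → mol r g x - g x = 0 := by
    intro x hx
    have h1 : x ∉ closedBall (0 : E) R := fun h => hx (self_subset_cthickening _ h)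
    have h2 : x ∉ cthickening r (closedBall (0 : E) R) := fun h =>
      hx (cthickening_mono hr2.2.le _ h)
    rw [hR' x h1, mol_van (Eventually.of_forall hR') hr0 h2, sub_zero]
  rw [dist_zero_right, Real.norm_eq_abs, abs_of_nonneg (sq_nonneg' _)]
  refine lt_of_le_of_lt ?_ hδε
  rw [sq_eq_sqOn hcpt.measurableSet (Eventually.of_forall hz)]
  unfold sqOn
  have h5 : ∫ x in cthickening 1 (closedBall (0 : E) R), ‖mol r g x - g x‖ ^ 2 ≤
      ∫ _x in cthickening 1 (closedBall (0 : E) R), δ ^ 2 := by
    refine setIntegral_mono_on ?_ ?_ hcpt.measurableSet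
      (fun x _ => pow_le_pow_left₀ (norm_nonneg _) (hb x) 2)
    · have hc : Continuous (fun x => ‖mol r g x - g x‖ ^ 2) :=
        (((mol_contDiff hl hr0).continuous.sub hg).norm).pow 2
      exact hc.continuousOn.integrableOn_compact hcpt
    · exact continuousOn_const.integrableOn_compact hcpt
  refine h5.trans (le_of_eq ?_)
  rw [setIntegral_const, smul_eq_mul, mul_comm]

theorem mol_tendsto {v : E → E} (hv : MemLp v 2) :
    Tendsto (fun r => sq (fun x => mol r v x - v x)) (𝓝[>] 0) (𝓝 0) := by
  have key : Tendsto (fun r => √(sq (fun x => mol r v x - v x))) (𝓝[>] 0) (𝓝 0) := by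
    rw [tendsto_order]
    refine ⟨fun a ha => Eventually.of_forall fun r => ha.trans_le (Real.sqrt_nonneg _),
      fun ε hε => ?_⟩
    have hv' : MemLp v (ENNReal.ofReal 2) := by simpa using hv
    obtain ⟨g, hgc, hgε, hg, hgm'⟩ := hv'.exists_hasCompactSupport_integral_rpow_sub_le
      (by norm_num) (show (0 : ℝ) < (ε / 4) ^ 2 by positivity)
    have hgm : MemLp g 2 := by simpa using hgm'
    have hdm : MemLp (fun x => v x - g x) 2 := hv.sub hgm
    have hs : √(sq (fun x => v x - g x)) ≤ ε / 4 := by
      rw [Real.sqrt_le_left (by positivity)]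
      unfold Helper38.Curl.sq
      simpa using hgε
    have ht := (mol_tendsto_cont hg hgc).sqrt
    rw [Real.sqrt_zero] at ht
    filter_upwards [ht.eventually (gt_mem_nhds (show (0 : ℝ) < ε / 4 by positivity)),
      self_mem_nhdsWithin] with r hr1 hr0
    have hr0' : 0 < r := hr0
    have e1 : (fun x => mol r v x - v x) = fun x =>
        ((mol r (fun y => v y - g y) x) + (mol r g x - g x)) - (v x - g x) := by
      funext x
      rw [mol_sub (hv.locallyIntegrable (by norm_num)) hg.locallyIntegrable hr0']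
      abel
    have m1 : MemLp (mol r (fun y => v y - g y)) 2 := mol_memLp hdm hr0'
    have m2 : MemLp (fun x => mol r g x - g x) 2 := (mol_memLp hgm hr0').sub hgm
    have m3 : MemLp (fun x => mol r (fun y => v y - g y) x + (mol r g x - g x)) 2 := m1.add m2
    rw [e1]
    have b1 := sqrt_sq_sub_le m3 hdm
    have b2 := sqrt_sq_add_le m1 m2
    have b3 : √(sq (mol r (fun y => v y - g y))) ≤ √(sq (fun x => v x - g x)) :=
      Real.sqrt_le_sqrt (sq_mol_le hdm hr0')
    linarith
  have h2 := key.pow 2
  rw [zero_pow two_ne_zero] at h2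
  refine h2.congr fun r => ?_
  exact Real.sq_sqrt (sq_nonneg' _)

end Pool.Agent.Helper22.Curl
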